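import Pool.Agent.H482R3.EA.Stm

set_option autoImplicit false

namespace Pool.Agent.H910R3.EA

open Pool.Agent.H482R3.EA

/-- SURJ -/
theorem t_SURJ : S_SURJ := by
  intro S c g
  obtain ⟨x, rfl⟩ := PresentedGroup.mk_surjective (rels c) g
  obtain ⟨L, rfl⟩ : ∃ L : List (S × Bool), FreeGroup.mk L = x := Quot.exists_rep x
  refine ⟨L, ?_⟩
  have h1 : (PresentedGroup.mk (rels c)) = FreeGroup.lift (gen c) := by
    ext s
    simp [gen, PresentedGroup.of]
  rw [h1, FreeGroup.lift_mk]
  unfold ev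
  congr 1
  refine List.map_congr_left (fun a _ => ?_)
  rcases a with ⟨s, b⟩
  cases b <;> simp

end Pool.Agent.H910R3.EA
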